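import Pool.Agent.Lib.FR60.Tame3
import Pool.Agent.Lib.FR60.Wild2
import Pool.Agent.Lib.FM60.OrderP
import Pool.Agent.Lib.FM60.TwistTools

set_option autoImplicit false
set_option linter.unusedSectionVars false
set_option linter.unusedVariables false

namespace Pool.Agent.Lib.FR60

open Polynomial WeierstrassCurve Pool.Agent.Lib.EC60 WithZero Pool.Agent.Lib.FM60

attribute [-instance] DivisionRing.toRatAlgebra

variable {Ω : Type*} [Field Ω] [DecidableEq Ω] [CharZero Ω] [Algebra ℚ Ω] [IsAlgClosed Ω]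

/-- A prime `ℓ ≥ 5` exactly dividing the discriminant gives an element of order `p` in the image
of Galois on the `p`-torsion, for every odd prime `p`. -/
theorem exists_order_p3 [IsGalois ℚ Ω] {A B : ℤ} (hΔ : 4 * A ^ 3 + 27 * B ^ 2 ≠ 0) {p : ℕ}
    (hp : p.Prime) (hp2 : p ≠ 2) {ℓ : ℕ} (hℓ : ℓ.Prime) (hℓ5 : 5 ≤ ℓ)
    {m : ℕ} (hm : 1 ≤ m) (hpm : ¬ p ∣ m) (M : MultAt ℓ m A B) :
    ∃ τ : Ω ≃ₐ[ℚ] Ω, (∀ P : Vp Ω A B p, (act τ)^[p] P.1 = P.1) ∧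
      ∃ P : Vp Ω A B p, act τ P.1 ≠ P.1 := by
  classical
  have hodd : Odd p := hp.odd_of_ne_two hp2
  have hfd := finiteDimensional_divField (Ω := Ω) (cur_disc hΔ) hp.one_le
  have hgal := isGalois_divField (Ω := Ω) (W := cur A B) p
  obtain ⟨v, I, h⟩ := exists_place (divField Ω (cur A B) p) ℓ hℓ
  obtain ⟨D, ρ, hρ, hDX, hDY, hlift, S, hS, hprod⟩ := exists_torsData (Ω := Ω) hΔ hp hp2 _ rfl
  obtain ⟨σ, hσ1, hσp⟩ : ∃ σ : divField Ω (cur A B) p ≃ₐ[ℚ] divField Ω (cur A B) p,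
      σ ≠ 1 ∧ ∀ x, (ρ σ)^[p] x = x := by
    by_cases hℓp : ℓ = p
    · subst hℓp
      have hI2 : ¬ ℓ ^ 2 ∣ Nat.card I :=
        not_sq_dvd_card' hp (Vp_card (Ω := Ω) hΔ hp) Vp_smul
          (fun g : I => ρ (g : divField Ω (cur A B) ℓ ≃ₐ[ℚ] divField Ω (cur A B) ℓ))
          (fun g k x => hρ.mul g k x) (fun g _ hg => Subtype.ext (hρ.inj g hg))
      obtain ⟨σ, hσI, hσp, ⟨x, hx⟩, -⟩ := node_wild2 hp hℓ5 h hI2 hm hpm M (Vp_card hΔ hp) Vp_smul D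
        hρ.pre hS hprod
      refine ⟨σ, ?_, fun x => by rw [hρ.pre.iterate, hσp, hρ.pre.one]⟩
      rintro rfl
      exact hx (hρ.pre.one x)
    · have hℓp' : ¬ ℓ ∣ p := fun h0 => hℓp ((Nat.prime_dvd_prime_iff_eq hℓ hp).mp h0)
      refine node_tame3 hp hp2 hℓ hℓ5 hℓp h hm hpm M Vp_smul D hρ hS hprod (fun P hP => ?_)
      have hP' : P.1 ≠ 0 := fun h0 => hP (Subtype.ext h0)
      have hpP : p • P.1 = 0 := congrArg Subtype.val (Vp_smul P)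
      exact val_x_le h hΔ hodd hℓp' hP' hpP (hDX P)
  obtain ⟨τ, hτ⟩ : ∃ τ : Ω ≃ₐ[ℚ] Ω, ∀ x : divField Ω (cur A B) p, τ (x : Ω) = (σ x : Ω) :=
    ⟨σ.liftNormal Ω, fun x => σ.liftNormal_commutes Ω x⟩
  have hact : ∀ P : Vp Ω A B p, (ρ σ P).1 = act τ P.1 := hlift τ σ hτ
  refine ⟨τ, fun P => ?_, ?_⟩
  · have hit : ∀ n : ℕ, (act τ)^[n] P.1 = ((ρ σ)^[n] P).1 := by
      intro n
      induction n with
      | zero => rfl
      | succ n ih => rw [Function.iterate_succ_apply', Function.iterate_succ_apply', ih, hact]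
    rw [hit, hσp]
  · by_contra hcon
    push Not at hcon
    apply hσ1
    apply hρ.inj
    intro P
    exact Subtype.ext ((hact P).trans (hcon P))


/-- A congruence modulo an odd prime between a curve with a prime of multiplicative reduction
and a twist of it: the twist is trivial. -/
theorem square_of_twist3 [IsGalois ℚ Ω] {A₁ B₁ : ℤ} (hΔ₁ : 4 * A₁ ^ 3 + 27 * B₁ ^ 2 ≠ 0)
    {W : WeierstrassCurve ℚ} [W.IsShortNF] {p : ℕ} (hp : p.Prime) (hp2 : p ≠ 2)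
    {ℓ : ℕ} (hℓ : ℓ.Prime) (hℓ5 : 5 ≤ ℓ) {m : ℕ} (hm : 1 ≤ m) (hpm : ¬ p ∣ m)
    (M : MultAt ℓ m A₁ B₁) {t : ℚ} (ht0 : t ≠ 0) (h4 : W.a₄ = t ^ 2 * A₁)
    (h6 : W.a₆ = t ^ 3 * B₁) (hc : Congruent Ω p (cur A₁ B₁) W) : IsSquare t := by
  by_contra ht
  obtain ⟨τ, hτ, hne⟩ := exists_order_p3 (Ω := Ω) hΔ₁ hp hp2 hℓ hℓ5 hm hpm M
  exact twist_false hΔ₁ hp hp2 ht0 ht h4 h6 hc τ hτ hne

end Pool.Agent.Lib.FR60
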